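import Pool.Agent.Lib.MP_c7af3c_ag.FANO.Iface
import Pool.Agent.Lib.MP_c7af3c_ag.SHARP.H54.Root

/-!
# MP_c7af3c_ag, project FANO, module HTFR (helper44)
The height of the entries of a normalised frame.
-/

set_option autoImplicit false

namespace Pool.Agent.Fano.H44

open MvPolynomial WithZero Pool.Agent.Gen Pool.Agent.Sharp Pool.Agent.Fano Pool.Agent.Sharp.H54

section
variable {L : Type} [Field L] (S : PlaceSys L) {n r : ℕ} (x : Fin r → Fin (n + 1) → L)

theorem le_mxF (p : S.V) (J : Fin r → Fin (n + 1)) : S.v p (pl x J) ≤ mxF S x p :=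
  Finset.le_sup' (fun J : Fin r → Fin (n + 1) => S.v p (pl x J)) (Finset.mem_univ J)

theorem exists_mxF (p : S.V) : ∃ J, S.v p (pl x J) = mxF S x p := by
  obtain ⟨q, -, hq⟩ := Finset.exists_mem_eq_sup'
    (s := (Finset.univ : Finset (Fin r → Fin (n + 1)))) ⟨fun _ => 0, Finset.mem_univ _⟩
    (fun J => S.v p (pl x J))
  exact ⟨q, hq.symm⟩

theorem mxF_ne_zero {J : Fin r → Fin (n + 1)} (h : pl x J ≠ 0) (p : S.V) : mxF S x p ≠ 0 := by
  intro h0
  have := le_mxF S x p J
  rw [h0, le_zero_iff, map_eq_zero] at this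
  exact h this

theorem finite_mxF (hS : ∀ f : L, f ≠ 0 → {p | S.v p f ≠ 1}.Finite) {J : Fin r → Fin (n + 1)}
    (h : pl x J ≠ 0) : {p | mxF S x p ≠ 1}.Finite := by
  have hf : (⋃ J ∈ {J : Fin r → Fin (n + 1) | pl x J ≠ 0},
      {p | S.v p (pl x J) ≠ 1}).Finite :=
    Set.Finite.biUnion (Set.toFinite _) fun q hq => hS _ hq
  refine hf.subset fun p hp => ?_
  by_contra hc
  simp only [Set.mem_ofPred_eq, ne_eq, Set.mem_iUnion, exists_prop, not_exists, not_and,
    not_not] at hc hp
  apply hp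
  obtain ⟨J', hJ⟩ := exists_mxF S x p
  have hJ0 : pl x J' ≠ 0 := fun h' => mxF_ne_zero S x h p (by rw [← hJ, h', map_zero])
  rw [← hJ]
  exact hc J' hJ0

variable {x} {J0 : Fin r → Fin (n + 1)} (hx : ∀ a b, x a (J0 b) = if a = b then 1 else 0)
include hx

theorem pl_norm : pl x J0 = 1 := by
  unfold pl
  have h : (Matrix.of fun a b => x a (J0 b)) = (1 : Matrix (Fin r) (Fin r) L) := by
    ext a b
    rw [Matrix.of_apply, hx, Matrix.one_apply]
  rw [h, Matrix.det_one]

theorem pl_update (a : Fin r) (k : Fin (n + 1)) :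
    pl x (Function.update J0 a k) = x a k := by
  have h2 : (Matrix.of fun a' b => x a' (Function.update J0 a k b)) =
      (1 : Matrix (Fin r) (Fin r) L).updateCol a (fun a' => x a' k) := by
    ext a' b
    rw [Matrix.updateCol_apply, Matrix.of_apply]
    by_cases h : b = a
    · rw [if_pos h, h, Function.update_self]
    · rw [if_neg h, Function.update_of_ne h, hx, Matrix.one_apply]
  unfold pl
  rw [h2, ← Matrix.cramer_apply, Matrix.cramer_one]
  rfl

theorem li_norm : LinearIndependent L x := by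
  rw [Fintype.linearIndependent_iff]
  intro g hg b
  have h := congrFun hg (J0 b)
  rw [Finset.sum_apply] at h
  simp only [Pi.smul_apply, smul_eq_mul, hx, mul_ite, mul_one, mul_zero, Pi.zero_apply,
    Finset.sum_ite_eq', Finset.mem_univ, if_true] at h
  exact h

theorem ht_le_hF (hS : S.IsProd) (a : Fin r) (k : Fin (n + 1)) :
    S.ht (n := 1) ![1, x a k] ≤ hF S x := by
  have hp : pl x J0 ≠ 0 := by
    rw [pl_norm hx]
    exact one_ne_zero
  have hne : (![1, x a k] : Fin (1 + 1) → L) ≠ 0 := fun h => by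
    have := congrFun h 0
    simp at this
  refine fs_mono S.w (log_fin (S.finite_mx _ hS.fin hne)) (log_fin (finite_mxF S x hS.fin hp))
    fun p => ?_
  have h1 : S.mx (n := 1) ![1, x a k] p ≤ mxF S x p := by
    unfold PlaceSys.mx
    refine Finset.sup'_le _ _ fun j _ => ?_
    fin_cases j
    · have h := le_mxF S x p J0
      rw [pl_norm hx] at h
      exact h
    · have h := le_mxF S x p (Function.update J0 a k)
      rw [pl_update hx] at h
      exact h
  have h3 : S.mx (n := 1) ![1, x a k] p ≠ 0 := S.mx_ne_zero _ hne p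
  have h4 := mxF_ne_zero S x hp p
  rw [← exp_log h3, ← exp_log h4] at h1
  exact WithZero.exp_le_exp.1 h1

end

theorem htfr (hB : HbfrStatement) : HtfrStatement := by
  intro n c r d hd J0
  refine ⟨2 * (r * (n + 1)), ?_⟩
  intro L _ _ D x hx hO S hS B hBD a k
  exact (ht_le_hF S hx hS a k).trans (hB L n c r d D x (li_norm hx) hO hd S hS B hBD)

end Pool.Agent.Fano.H44
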