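import Pool.Agent.Lib.MP_c7af3c_ag.FANO.Iface
import Pool.Agent.Lib.MP_c7af3c_ag.LINES.H26.HblAlg

/-!
# MP_c7af3c_ag, project FANO, module LOCR (helper44)
The size of the determinant of the columns of a plane at a place.
-/

set_option autoImplicit false
set_option linter.unusedSectionVars false

namespace Pool.Agent.Fano.H44

open MvPolynomial WithZero Matrix Kronecker Pool.Agent.Gen Pool.Agent.Sharp Pool.Agent.Fano
open Pool.Agent.Lines.H26 (detF detF_chg detF_map detF_first v_detF_le)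

section loc
variable {L : Type} [Field L] {n c r : ℕ} {d : Fin c → ℕ} (D : DSys L n c d)
  (z z' : Fin r → Fin (n + 1) → L) (g : Matrix (Fin r) (Fin r) L)

/-- the block transformation -/
noncomputable def Phi (n : ℕ) (g : Matrix (Fin r) (Fin r) L) :
    Matrix (Fin r × Fin (n + 1)) (Fin r × Fin (n + 1)) L :=
  g ⊗ₖ (1 : Matrix (Fin (n + 1)) (Fin (n + 1)) L)

theorem det_Phi : (Phi n g).det = g.det ^ (n + 1) := by
  unfold Phi
  rw [Matrix.det_kronecker, Matrix.det_one, one_pow, mul_one, Fintype.card_fin]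

theorem Phi_mulVec (u : Fin r × Fin (n + 1) → L) (ρ : Fin r × Fin (n + 1)) :
    (Phi n g).mulVec u ρ = ∑ b, g ρ.1 b * u (b, ρ.2) := by
  unfold Phi
  change ∑ ρ', (g ⊗ₖ (1 : Matrix (Fin (n + 1)) (Fin (n + 1)) L)) ρ ρ' * u ρ' = _
  rw [Fintype.sum_prod_type]
  refine Finset.sum_congr rfl fun b _ => ?_
  rw [Finset.sum_eq_single ρ.2]
  · rw [Matrix.kroneckerMap_apply, Matrix.one_apply_eq, mul_one]
  · intro r _ hr
    rw [Matrix.kroneckerMap_apply, Matrix.one_apply_ne (Ne.symm hr), mul_zero, zero_mul]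
  · intro h; exact absurd (Finset.mem_univ _) h

theorem Phi_PP (q : Fin r × Fin r) (ρ : Fin r × Fin (n + 1)) :
    (Phi n g).mulVec (PP z' q) ρ = g ρ.1 q.1 * z' q.2 ρ.2 := by
  rw [Phi_mulVec]
  unfold PP
  simp

variable (hz : ∀ a k, z a k = ∑ b, g a b * z' b k)
include hz

/-- the fixed columns -/
theorem PP_eq (hg : g.det ≠ 0) (q : Fin r × Fin r) :
    PP z q = ∑ q', (g⁻¹ ⊗ₖ gᵀ) q' q • (Phi n g).mulVec (PP z' q') := by
  funext ρ
  rw [Finset.sum_apply, Fintype.sum_prod_type]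
  have hgg : g * g⁻¹ = 1 := Matrix.mul_nonsing_inv g (isUnit_iff_ne_zero.2 hg)
  have h1 : ∀ a', ∑ b', ((g⁻¹ ⊗ₖ gᵀ) (a', b') q • (Phi n g).mulVec (PP z' (a', b'))) ρ =
      (g ρ.1 a' * g⁻¹ a' q.1) * z q.2 ρ.2 := by
    intro a'
    rw [hz q.2 ρ.2, Finset.mul_sum]
    refine Finset.sum_congr rfl fun b' _ => ?_
    rw [Pi.smul_apply, smul_eq_mul, Phi_PP, Matrix.kroneckerMap_apply, Matrix.transpose_apply]
    ring
  rw [Finset.sum_congr rfl fun a' _ => h1 a', ← Finset.sum_mul, ← Matrix.mul_apply, hgg]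
  unfold PP
  by_cases h : ρ.1 = q.1
  · rw [if_pos h, h, Matrix.one_apply_eq, one_mul]
  · rw [if_neg h, Matrix.one_apply_ne h, zero_mul]

/-- operator columns -/
theorem op_eq (hg : g.det ≠ 0) (v v' : Fin r × Fin (n + 1) → L) (θ : Fin r → Fin r → L)
    (h : ∀ ρ, v ρ = ∑ b, g ρ.1 b * v' (b, ρ.2) + ∑ b, θ ρ.1 b * z' b ρ.2) :
    v = (Phi n g).mulVec v' +
      ∑ q' : Fin r × Fin r, (∑ α, g⁻¹ q'.1 α * θ α q'.2) • (Phi n g).mulVec (PP z' q') := by
  funext ρ
  rw [Pi.add_apply, Phi_mulVec, h ρ]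
  congr 1
  rw [Finset.sum_apply, Fintype.sum_prod_type, Finset.sum_comm]
  refine Finset.sum_congr rfl fun b _ => ?_
  have hgg : g * g⁻¹ = 1 := Matrix.mul_nonsing_inv g (isUnit_iff_ne_zero.2 hg)
  have h1 : ∀ a', ((∑ α, g⁻¹ (a', b).1 α * θ α (a', b).2) •
      (Phi n g).mulVec (PP z' (a', b))) ρ = ∑ α, (g ρ.1 a' * g⁻¹ a' α) * (θ α b * z' b ρ.2) := by
    intro a'
    rw [Pi.smul_apply, smul_eq_mul, Phi_PP, Finset.sum_mul]
    refine Finset.sum_congr rfl fun α _ => ?_
    ring
  rw [Finset.sum_congr rfl fun a' _ => h1 a', Finset.sum_comm]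
  have h2 : ∀ α, ∑ a', (g ρ.1 a' * g⁻¹ a' α) * (θ α b * z' b ρ.2) =
      (1 : Matrix (Fin r) (Fin r) L) ρ.1 α * (θ α b * z' b ρ.2) := by
    intro α
    rw [← Finset.sum_mul, ← Matrix.mul_apply, hgg]
  rw [Finset.sum_congr rfl fun α _ => h2 α, Finset.sum_eq_single ρ.1]
  · rw [Matrix.one_apply_eq, one_mul]
  · intro α _ hα
    rw [Matrix.one_apply_ne (Ne.symm hα), zero_mul]
  · intro h; exact absurd (Finset.mem_univ _) h

/-- derivations of the coordinates -/
theorem del_z (m : Fin c) (I : Fin (n + 1) →₀ ℕ) (a : Fin r) (k : Fin (n + 1)) :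
    D.del m I (z a k) = ∑ b, g a b * D.del m I (z' b k) + ∑ b, D.del m I (g a b) * z' b k := by
  rw [hz a k, map_sum, ← Finset.sum_add_distrib]
  refine Finset.sum_congr rfl fun b _ => ?_
  rw [Derivation.leibniz]
  simp only [smul_eq_mul]
  ring

theorem VV_eq (G : Fin c → MvPolynomial (Fin (n + 1)) L) :
    ∃ θ : Fin r → Fin r → L, ∀ ρ, VV D z G ρ = ∑ b, g ρ.1 b * VV D z' G (b, ρ.2) +
      ∑ b, θ ρ.1 b * z' b ρ.2 := by
  refine ⟨fun a b => ∑ m, ∑ I ∈ (G m).support, coeff I (G m) * D.del m I (g a b), fun ρ => ?_⟩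
  have h1 : ∀ (x : Fin (n + 1) → L) (k : Fin (n + 1)), VT D x G k =
      ∑ m, ∑ I ∈ (G m).support, coeff I (G m) * D.del m I (x k) := by
    intro x k
    rw [VT_apply, Finset.sum_apply]
    exact Finset.sum_congr rfl fun m _ => D.V_apply x m (G m) k
  unfold VV
  simp only [h1]
  have h2 : ∀ b, g ρ.1 b * ∑ m, ∑ I ∈ (G m).support, coeff I (G m) * D.del m I (z' b ρ.2) =
      ∑ m, ∑ I ∈ (G m).support, coeff I (G m) * (g ρ.1 b * D.del m I (z' b ρ.2)) := by
    intro b
    rw [Finset.mul_sum]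
    refine Finset.sum_congr rfl fun m _ => ?_
    rw [Finset.mul_sum]
    exact Finset.sum_congr rfl fun I _ => by ring
  have h3 : ∀ b, (∑ m, ∑ I ∈ (G m).support, coeff I (G m) * D.del m I (g ρ.1 b)) * z' b ρ.2 =
      ∑ m, ∑ I ∈ (G m).support, coeff I (G m) * (D.del m I (g ρ.1 b) * z' b ρ.2) := by
    intro b
    rw [Finset.sum_mul]
    refine Finset.sum_congr rfl fun m _ => ?_
    rw [Finset.sum_mul]
    exact Finset.sum_congr rfl fun I _ => by ring
  rw [Finset.sum_congr rfl fun b _ => h2 b, Finset.sum_congr rfl fun b _ => h3 b,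
    Finset.sum_comm, Finset.sum_comm (s := Finset.univ) (t := Finset.univ)
      (f := fun b m => ∑ I ∈ (G m).support, coeff I (G m) * (D.del m I (g ρ.1 b) * z' b ρ.2)),
    ← Finset.sum_add_distrib]
  refine Finset.sum_congr rfl fun m _ => ?_
  rw [Finset.sum_comm, Finset.sum_comm (s := Finset.univ) (t := (G m).support)
      (f := fun b I => coeff I (G m) * (D.del m I (g ρ.1 b) * z' b ρ.2)),
    ← Finset.sum_add_distrib]
  refine Finset.sum_congr rfl fun I _ => ?_
  rw [del_z D z z' g hz, mul_add, Finset.mul_sum, Finset.mul_sum]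

theorem WW_eq (p q : Fin (n + 1)) :
    ∃ θ : Fin r → Fin r → L, ∀ ρ, WW D z p q ρ = ∑ b, g ρ.1 b * WW D z' p q (b, ρ.2) +
      ∑ b, θ ρ.1 b * z' b ρ.2 := by
  obtain ⟨θ, hθ⟩ := VV_eq D z z' g hz fun m => X q * pderiv p (D.F m)
  refine ⟨θ, fun ρ => ?_⟩
  have h1 := hθ ρ
  unfold VV at h1
  unfold WW WT
  simp only [Pi.add_apply, Pi.smul_apply, smul_eq_mul, mul_add, Finset.sum_add_distrib]
  rw [h1, hz ρ.1 q, Finset.sum_mul]
  have h2 : ∀ b, g ρ.1 b * z' b q * (Pi.single p (1 : L) : Fin (n + 1) → L) ρ.2 =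
      g ρ.1 b * (z' b q * (Pi.single p (1 : L) : Fin (n + 1) → L) ρ.2) := fun b => by ring
  rw [Finset.sum_congr rfl fun b _ => h2 b]
  ring

omit hz in
/-- the other columns with the frame `y` but the forms of the frame `x` -/
noncomputable def lcv (x y : Fin r → Fin (n + 1) → L) : LC n c r → (Fin r × Fin (n + 1) → L)
  | LC.W p q => WW D y p q
  | LC.H m J k I => VV D y (one1 m (hJ x J k * monomial I 1))

omit hz in
theorem lcv_self (x : Fin r → Fin (n + 1) → L) (C : LC n c r) : lcv D x x C = C.val D x := by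
  cases C <;> rfl

theorem lcv_eq (x : Fin r → Fin (n + 1) → L) (C : LC n c r) :
    ∃ θ : Fin r → Fin r → L, ∀ ρ, lcv D x z C ρ = ∑ b, g ρ.1 b * lcv D x z' C (b, ρ.2) +
      ∑ b, θ ρ.1 b * z' b ρ.2 := by
  cases C with
  | W p q => exact WW_eq D z z' g hz p q
  | H m J k I => exact VV_eq D z z' g hz _

omit hz in
/-- all the columns with the frame `y` but the forms of the frame `x` -/
noncomputable def colY (x y : Fin r → Fin (n + 1) → L) {q : ℕ} (C : Fin q → LC n c r)
    (J : Fin r → Fin (n + 1)) :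
    ((Fin r × Fin r) ⊕ Fin q) ⊕ Hix r d → (Fin r × Fin (n + 1) → L) :=
  Sum.elim (Sum.elim (PP y) fun s => lcv D x y (C s)) fun b => VV D y (mon d J b)

omit hz in
theorem colY_self (x : Fin r → Fin (n + 1) → L) {q : ℕ} (C : Fin q → LC n c r)
    (J : Fin r → Fin (n + 1)) : colY D x x C J = colF D x C J := by
  funext k
  unfold colY colF
  rcases k with (k | k) | k
  · rfl
  · exact lcv_self D x (C k)
  · rfl

/-- change of the frame -/
theorem detF_loc (hg : g.det ≠ 0) (x : Fin r → Fin (n + 1) → L) {q : ℕ}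
    (e : ((Fin r × Fin r) ⊕ Fin q) ⊕ Hix r d ≃ Fin r × Fin (n + 1))
    (C : Fin q → LC n c r) (J : Fin r → Fin (n + 1)) :
    detF e (colY D x z C J) = g.det ^ (n + 1) * detF e (colY D x z' C J) := by
  classical
  choose θC hθC using fun s => lcv_eq D z z' g hz x (C s)
  choose θM hθM using fun b : Hix r d => VV_eq D z z' g hz (mon d J b)
  have hU : (g⁻¹ ⊗ₖ gᵀ).det = 1 := by
    rw [Matrix.det_kronecker, Matrix.det_transpose, Matrix.det_nonsing_inv,
      Ring.inverse_eq_inv', Fintype.card_fin, inv_pow, inv_mul_cancel₀ (pow_ne_zero _ hg)]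
  set a := Equiv.sumAssoc (Fin r × Fin r) (Fin q) (Hix r d) with ha
  have key : ∀ (u : Fin r × Fin r → Fin r × Fin (n + 1) → L)
      (v : Fin q → Fin r × Fin (n + 1) → L) (w : Hix r d → Fin r × Fin (n + 1) → L),
      detF e (Sum.elim (Sum.elim u v) w) = detF (a.symm.trans e) (Sum.elim u (Sum.elim v w)) := by
    intro u v w
    unfold detF
    rw [← Matrix.det_submatrix_equiv_self a.symm]
    congr 1
    ext k k'
    simp only [Matrix.submatrix_apply, Matrix.of_apply, Equiv.trans_apply]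
    rcases k' with k' | (k' | k') <;> rfl
  have h1 := detF_first (a.symm.trans e) (PP z)
    (fun q : Fin r × Fin r => (Phi n g).mulVec (PP z' q))
    (Sum.elim (fun s => lcv D x z (C s)) fun b => VV D z (mon d J b))
    (fun k => (Phi n g).mulVec ((Sum.elim (fun s => lcv D x z' (C s))
      fun b => VV D z' (mon d J b) : Fin q ⊕ Hix r d → Fin r × Fin (n + 1) → L) k))
    (g⁻¹ ⊗ₖ gᵀ)
    (Matrix.of fun q' k => ∑ α, g⁻¹ q'.1 α * (Sum.elim θC θM : Fin q ⊕ Hix r d →
        Fin r → Fin r → L) k α q'.2)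
    (fun q => PP_eq z z' g hz hg q)
    (by
      rintro (s | b)
      · exact op_eq z z' g hz hg _ _ _ (hθC s)
      · exact op_eq z z' g hz hg _ _ _ (hθM b))
  have h2 := detF_map e (colY D x z' C J) (Phi n g)
  rw [det_Phi] at h2
  rw [← h2]
  unfold colY
  rw [key]
  rw [hU, mul_one] at h1
  rw [h1]
  have h3 : (fun k => (Phi n g).mulVec ((Sum.elim (Sum.elim (PP z') fun s => lcv D x z' (C s))
      fun b => VV D z' (mon d J b) : ((Fin r × Fin r) ⊕ Fin q) ⊕ Hix r d →
        Fin r × Fin (n + 1) → L) k)) =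
      Sum.elim (Sum.elim (fun q => (Phi n g).mulVec (PP z' q))
        fun s => (Phi n g).mulVec (lcv D x z' (C s)))
        fun b => (Phi n g).mulVec (VV D z' (mon d J b)) := by
    funext k
    rcases k with (k | k) | k <;> rfl
  rw [h3, key]
  congr 1
  funext k
  rcases k with k | (k | k) <;> rfl

end loc

section bounds
variable {L : Type} [Field L] {n c r : ℕ} {d : Fin c → ℕ} (D : DSys L n c d)
  (z : Fin r → Fin (n + 1) → L)

theorem WW_bound {v : Valuation L ℤᵐ⁰} {M : ℤᵐ⁰} (hM : 1 ≤ M)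
    (hdel : ∀ m I, I.degree = d m → ∀ f, v f ≤ 1 → v (D.del m I f) ≤ M)
    (hF : ∀ m, CB v (D.F m) M) (hz : ∀ a k, v (z a k) ≤ 1) (p q : Fin (n + 1))
    (ρ : Fin r × Fin (n + 1)) : v (WW D z p q ρ) ≤ M * M := by
  unfold WW WT
  rw [Pi.add_apply]
  refine (v.map_add _ _).trans (max_le ?_ ?_)
  · rw [Pi.smul_apply, smul_eq_mul, map_mul]
    refine mul_le_mul' ((hz _ _).trans hM) ?_
    refine le_trans ?_ hM
    by_cases hp : ρ.2 = p
    · rw [hp]; simp
    · rw [Pi.single_eq_of_ne hp, map_zero]; exact zero_le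
  · exact VT_bound D _ v M M hdel (hz _) _ (fun m => deg_XF D m _ _)
      (fun m => CB_XF (hF m) _ _) ρ.2

theorem VV_bound {v : Valuation L ℤᵐ⁰} {M b : ℤᵐ⁰}
    (hdel : ∀ m I, I.degree = d m → ∀ f, v f ≤ 1 → v (D.del m I f) ≤ M)
    (hz : ∀ a k, v (z a k) ≤ 1) (G : Fin c → MvPolynomial (Fin (n + 1)) L)
    (hG : ∀ m, ∀ I ∈ (G m).support, I.degree = d m) (hb : ∀ m, CB v (G m) b)
    (ρ : Fin r × Fin (n + 1)) : v (VV D z G ρ) ≤ b * M :=
  VT_bound D _ v M b hdel (hz _) G hG hb ρ.2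

theorem deg_of_hom {F : MvPolynomial (Fin (n + 1)) L} {k : ℕ} (h : F.IsHomogeneous k) :
    ∀ I ∈ F.support, I.degree = k := by
  intro I hI
  rw [Finsupp.degree_eq_weight_one]
  exact h (mem_support_iff.1 hI)

theorem CB_one {v : Valuation L ℤᵐ⁰} : CB v (1 : MvPolynomial (Fin (n + 1)) L) 1 := by
  classical
  intro I
  rw [coeff_one]
  split_ifs
  · rw [map_one]
  · rw [map_zero]; exact zero_le

theorem CB_zero {v : Valuation L ℤᵐ⁰} (b : ℤᵐ⁰) :
    CB v (0 : MvPolynomial (Fin (n + 1)) L) b := by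
  intro I
  rw [coeff_zero, map_zero]
  exact zero_le

theorem CB_pow {v : Valuation L ℤᵐ⁰} {F : MvPolynomial (Fin (n + 1)) L} (h : CB v F 1) (k : ℕ) :
    CB v (F ^ k) 1 := by
  induction k with
  | zero => rw [pow_zero]; exact CB_one
  | succ k ih =>
    rw [pow_succ]
    have := ih.mul v h
    rwa [one_mul] at this

theorem CB_prod {v : Valuation L ℤᵐ⁰} {ι : Type} (s : Finset ι)
    (f : ι → MvPolynomial (Fin (n + 1)) L) (h : ∀ i ∈ s, CB v (f i) 1) :
    CB v (∏ i ∈ s, f i) 1 := by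
  classical
  induction s using Finset.induction_on with
  | empty => rw [Finset.prod_empty]; exact CB_one
  | insert a s ha ih =>
    rw [Finset.prod_insert ha]
    have := (h a (Finset.mem_insert_self _ _)).mul v
      (ih fun i hi => h i (Finset.mem_insert_of_mem hi))
    rwa [one_mul] at this

theorem CB_sum {v : Valuation L ℤᵐ⁰} {ι : Type} (s : Finset ι)
    (f : ι → MvPolynomial (Fin (n + 1)) L) {b : ℤᵐ⁰} (h : ∀ i ∈ s, CB v (f i) b) :
    CB v (∑ i ∈ s, f i) b := by
  intro I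
  rw [coeff_sum]
  exact v.map_sum_le fun i hi => h i hi I

theorem mon_deg (J : Fin r → Fin (n + 1)) (b : Hix r d) (m : Fin c) :
    ∀ I ∈ (mon (L := L) d J b m).support, I.degree = d m := by
  unfold mon
  by_cases h : m = b.1
  · rw [if_pos h]
    refine deg_of_hom ?_
    have h1 : (∏ i, (X (J i) : MvPolynomial (Fin (n + 1)) L) ^ (b.2.1 i)).IsHomogeneous
        (∑ i, b.2.1 i) := by
      refine IsHomogeneous.prod _ _ _ fun i _ => ?_
      have := (isHomogeneous_X L (J i)).pow (b.2.1 i)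
      rwa [one_mul] at this
    have h2 : ∑ i, b.2.1 i = d m := by
      rw [← Finsupp.degree_eq_sum, h]
      exact b.2.2
    rwa [h2] at h1
  · rw [if_neg h]
    intro I hI
    simp at hI

theorem CB_mon {v : Valuation L ℤᵐ⁰} (J : Fin r → Fin (n + 1)) (b : Hix r d) (m : Fin c) :
    CB v (mon (L := L) d J b m) 1 := by
  unfold mon
  by_cases h : m = b.1
  · rw [if_pos h]
    exact CB_prod _ _ fun i _ => CB_pow (CB_X v _) _
  · rw [if_neg h]
    exact CB_zero 1

theorem hJ_hom (x : Fin r → Fin (n + 1) → L) (J : Fin r → Fin (n + 1)) (k : Fin (n + 1)) :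
    (hJ x J k).IsHomogeneous 1 := by
  unfold hJ
  exact (hom_CX _ _).sub (IsHomogeneous.sum _ _ _ fun b _ => hom_CX _ _)

theorem CB_hJ {v : Valuation L ℤᵐ⁰} (x : Fin r → Fin (n + 1) → L) {β : ℤᵐ⁰}
    (h : ∀ J, v (pl x J) ≤ β) (J : Fin r → Fin (n + 1)) (k : Fin (n + 1)) :
    CB v (hJ x J k) β := by
  unfold hJ
  refine CB.sub v ((CB_CX v _ _).mono v (h _)) (CB_sum _ _ fun b _ => ?_)
  exact (CB_CX v _ _).mono v (h _)

theorem CB_monomial {v : Valuation L ℤᵐ⁰} (I : Fin (n + 1) →₀ ℕ) :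
    CB v (monomial I (1 : L)) 1 := by
  classical
  intro I'
  rw [coeff_monomial]
  split_ifs
  · rw [map_one]
  · rw [map_zero]; exact zero_le

theorem lcv_bound {v : Valuation L ℤᵐ⁰} {M : ℤᵐ⁰} (hM : 1 ≤ M)
    (hdel : ∀ m I, I.degree = d m → ∀ f, v f ≤ 1 → v (D.del m I f) ≤ M)
    (hF : ∀ m, CB v (D.F m) M) (hz : ∀ a k, v (z a k) ≤ 1)
    (x : Fin r → Fin (n + 1) → L) {β : ℤᵐ⁰} (h : ∀ J, v (pl x J) ≤ β)
    (C : LC n c r) (hC : C.Ok d) (ρ : Fin r × Fin (n + 1)) :
    v (lcv D x z C ρ) ≤ M ^ 2 * β ^ C.wt := by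
  cases C with
  | W p q =>
    unfold LC.wt
    rw [pow_zero, mul_one, pow_two]
    exact WW_bound D z hM hdel hF hz p q ρ
  | H m J k I =>
    unfold LC.wt
    rw [pow_one]
    have h1 : v (VV D z (one1 m (hJ x J k * monomial I 1)) ρ) ≤ β * M := by
      refine VV_bound D z hdel hz _ ?_ ?_ ρ
      · intro m'
        unfold one1
        by_cases h' : m' = m
        · rw [if_pos h']
          have h2 := (hJ_hom x J k).mul (isHomogeneous_monomial (d := I) (1 : L) rfl)
          have h3 : 1 + I.degree = d m' := by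
            have : I.degree + 1 = d m := hC
            rw [h', ← this, add_comm]
          rw [h3] at h2
          exact deg_of_hom h2
        · rw [if_neg h']
          intro I' hI'
          simp at hI'
      · intro m'
        unfold one1
        by_cases h' : m' = m
        · rw [if_pos h']
          have := (CB_hJ x h J k).mul v (CB_monomial (v := v) I)
          rwa [mul_one] at this
        · rw [if_neg h']
          exact CB_zero _
    refine h1.trans ?_
    rw [mul_comm β M, pow_two]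
    exact mul_le_mul' (le_mul_of_one_le_right' hM) le_rfl

end bounds

theorem locr : LocrStatement := by
  intro L _ _ n c r d D x J hJ0 q C hC e v B hB hdel hF hmax
  classical
  set g : Matrix (Fin r) (Fin r) L := Matrix.of fun a b => x a (J b) with hg
  have hgd : g.det = pl x J := rfl
  set z' : Fin r → Fin (n + 1) → L := fun b k => pl x (Function.update J b k) / pl x J with hz'
  have hcr : ∀ (b : Fin r) (k : Fin (n + 1)),
      Matrix.cramer g (fun a => x a k) b = pl x (Function.update J b k) := by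
    intro b k
    rw [Matrix.cramer_apply]
    unfold pl
    congr 1
    ext a b'
    rw [Matrix.updateCol_apply, Matrix.of_apply]
    by_cases h : b' = b
    · rw [if_pos h, h, Function.update_self]
    · rw [if_neg h, Function.update_of_ne h, hg, Matrix.of_apply]
  have hz : ∀ a k, x a k = ∑ b, g a b * z' b k := by
    intro a k
    have h1 := congrFun (Matrix.mulVec_cramer g fun a => x a k) a
    rw [Pi.smul_apply, smul_eq_mul, hgd] at h1
    have h2 : (g.mulVec (Matrix.cramer g fun a => x a k)) a =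
        ∑ b, g a b * pl x (Function.update J b k) := by
      change ∑ b, g a b * Matrix.cramer g (fun a => x a k) b = _
      exact Finset.sum_congr rfl fun b _ => by rw [hcr]
    rw [h2] at h1
    have h3 : ∑ b, g a b * z' b k = (∑ b, g a b * pl x (Function.update J b k)) / pl x J := by
      rw [Finset.sum_div]
      exact Finset.sum_congr rfl fun b _ => by rw [hz']; ring
    rw [h3, h1]
    field_simp
  have hv0 : v (pl x J) ≠ 0 := (map_ne_zero v).2 hJ0
  have hzb : ∀ b k, v (z' b k) ≤ 1 := by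
    intro b k
    rw [hz', map_div₀]
    exact (div_le_one₀ (zero_lt_iff.2 hv0)).2 (hmax _)
  have h1 : Matrix.det (Matrix.of fun k k' => colF D x C J k' (e k)) =
      g.det ^ (n + 1) * detF e (colY D x z' C J) := by
    have h2 := detF_loc D x z' g hz (by rw [hgd]; exact hJ0) x e C J
    rw [colY_self] at h2
    exact h2
  rw [h1, map_mul, map_pow, hgd]
  have h3 := v_detF_le v e (colY D x z' C J)
    (Sum.elim (Sum.elim (fun _ => (1 : ℤᵐ⁰)) fun s => B ^ 2 * v (pl x J) ^ (C s).wt)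
      fun _ => B ^ 2) (fun _ => 1) (by
      rintro ((k | k) | k) ρ
      · simp only [Sum.elim_inl, one_mul]
        unfold colY
        simp only [Sum.elim_inl]
        unfold PP
        split_ifs
        · exact hzb _ _
        · rw [map_zero]; exact zero_le
      · simp only [Sum.elim_inl, Sum.elim_inr, one_mul]
        unfold colY
        simp only [Sum.elim_inl, Sum.elim_inr]
        exact lcv_bound D z' hB hdel hF hzb x hmax (C k) (hC k) ρ
      · simp only [Sum.elim_inr, one_mul]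
        unfold colY
        simp only [Sum.elim_inr]
        refine (VV_bound D z' hdel hzb _ (mon_deg J k) (fun m => CB_mon J k m) ρ).trans ?_
        rw [one_mul, pow_two]
        exact le_mul_of_one_le_right' hB)
  rw [Finset.prod_const_one, one_mul, Fintype.prod_sum_type, Fintype.prod_sum_type] at h3
  simp only [Sum.elim_inl, Sum.elim_inr, Finset.prod_const_one, one_mul, Finset.prod_const,
    Finset.card_univ, Finset.prod_mul_distrib, Fintype.card_fin] at h3
  have hcard : q + Fintype.card (Hix r d) ≤ r * (n + 1) := by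
    have := Fintype.card_congr e
    rw [Fintype.card_sum, Fintype.card_sum, Fintype.card_prod, Fintype.card_prod,
      Fintype.card_fin, Fintype.card_fin, Fintype.card_fin] at this
    omega
  rw [Finset.prod_pow_eq_pow_sum] at h3
  have key : ∀ a b c d : ℤᵐ⁰, a * (b * c * d) = b * d * (a * c) := by
    intro a b c d
    ac_rfl
  calc v (pl x J) ^ (n + 1) * v (detF e (colY D x z' C J))
      ≤ v (pl x J) ^ (n + 1) * ((B ^ 2) ^ q * v (pl x J) ^ (∑ s, (C s).wt) *
        (B ^ 2) ^ Fintype.card (Hix r d)) := mul_le_mul' le_rfl h3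
    _ = B ^ (2 * (q + Fintype.card (Hix r d))) * v (pl x J) ^ (n + 1 + ∑ s, (C s).wt) := by
        rw [pow_add (v (pl x J)) (n + 1), mul_add 2, pow_add B, pow_mul, pow_mul]
        exact key _ _ _ _
    _ ≤ B ^ (2 * (r * (n + 1))) * v (pl x J) ^ (n + 1 + ∑ s, (C s).wt) :=
        mul_le_mul' (pow_le_pow_right' hB (Nat.mul_le_mul_left 2 hcard)) le_rfl

end Pool.Agent.Fano.H44
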